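import Pool.Agent.W770.KP.Stm

/-! Project KP, part CHP: the chart inequality for planes from the level bound. -/

set_option autoImplicit false

open scoped Classical

namespace Pool.Agent.W571.KP

open Pool.Agent.W770.KP

theorem pow_succ_le (E : ℝ) (hE : 1 ≤ E) (n : ℕ) :
    (E + 1) ^ (n + 1) ≤ E ^ (n + 1) + (2 ^ (n + 1) - 1) * E ^ n := by
  induction n with
  | zero => norm_num
  | succ n ih =>
    have h1 : (E + 1) ^ (n + 1 + 1) ≤ (E ^ (n + 1) + (2 ^ (n + 1) - 1) * E ^ n) * (E + 1) := by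
      rw [pow_succ]
      exact mul_le_mul_of_nonneg_right ih (by linarith)
    have h2 : E ^ n ≤ E ^ (n + 1) := pow_le_pow_right₀ hE (Nat.le_succ n)
    have h3 : (1 : ℝ) ≤ 2 ^ (n + 1) := one_le_pow₀ (by norm_num)
    refine h1.trans ?_
    have h4 : (E ^ (n + 1) + (2 ^ (n + 1) - 1) * E ^ n) * (E + 1) =
        E ^ (n + 1 + 1) + E ^ (n + 1) + (2 ^ (n + 1) - 1) * (E ^ (n + 1) + E ^ n) := by
      ring
    rw [h4, pow_succ (2 : ℝ) (n + 1)]
    nlinarith [mul_nonneg (sub_nonneg.2 h3) (sub_nonneg.2 h2)]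

/-- the layer cake inequality -/
theorem layer (p D q c : ℕ) (hp : 1 ≤ p) (hD : 1 ≤ D) (hc : c ≤ q) :
    (c : ℝ) ^ p ≤ (D : ℝ) ^ p +
      ∑ E ∈ Finset.Ico D q, if E < c then 2 ^ p * (E : ℝ) ^ (p - 1) else 0 := by
  have hnn : ∀ E ∈ Finset.Ico D q, (0 : ℝ) ≤ if E < c then 2 ^ p * (E : ℝ) ^ (p - 1) else 0 := by
    intro E _
    split_ifs <;> positivity
  by_cases h : c ≤ D
  · have h1 : (c : ℝ) ^ p ≤ (D : ℝ) ^ p :=
      pow_le_pow_left₀ (Nat.cast_nonneg c) (by exact_mod_cast h) p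
    have h2 := Finset.sum_nonneg hnn
    linarith
  · push Not at h
    have h1 : ∀ c', D ≤ c' → (c' : ℝ) ^ p ≤ (D : ℝ) ^ p +
        ∑ E ∈ Finset.Ico D c', 2 ^ p * (E : ℝ) ^ (p - 1) := by
      intro c' hc'
      induction c', hc' using Nat.le_induction with
      | base => simp
      | succ n hn ih =>
        rw [Finset.sum_Ico_succ_top hn]
        have h2 : ((n + 1 : ℕ) : ℝ) ^ p ≤ (n : ℝ) ^ p + 2 ^ p * (n : ℝ) ^ (p - 1) := by
          obtain ⟨p', rfl⟩ : ∃ p', p = p' + 1 := ⟨p - 1, by omega⟩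
          have h3 := pow_succ_le (n : ℝ) (by exact_mod_cast hD.trans hn) p'
          push_cast
          refine h3.trans ?_
          have h4 : (0 : ℝ) ≤ (n : ℝ) ^ p' := by positivity
          nlinarith
        linarith
    have h2 : ∑ E ∈ Finset.Ico D c, 2 ^ p * (E : ℝ) ^ (p - 1) ≤
        ∑ E ∈ Finset.Ico D q, if E < c then 2 ^ p * (E : ℝ) ^ (p - 1) else 0 := by
      have h3 : ∑ E ∈ Finset.Ico D c, 2 ^ p * (E : ℝ) ^ (p - 1) =
          ∑ E ∈ Finset.Ico D c, if E < c then 2 ^ p * (E : ℝ) ^ (p - 1) else 0 := by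
        refine Finset.sum_congr rfl fun E hE => ?_
        rw [if_pos (Finset.mem_Ico.1 hE).2]
      rw [h3]
      exact Finset.sum_le_sum_of_subset_of_nonneg (Finset.Ico_subset_Ico_right hc)
        fun E hE _ => hnn E hE
    exact (h1 c h.le).trans (by linarith)

theorem chp : S_LOW → S_LB → S_CHP := by
  intro hLOW hLB m k hk hkm
  obtain ⟨j, rfl⟩ : ∃ j, m = j + 1 := ⟨m - 1, by omega⟩
  obtain ⟨C₁, hC₁, hlb⟩ := hLB j k hk hkm
  set p : ℕ := j + 1 + 1 - k with hp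
  have hp1 : 1 ≤ p := by omega
  have hp2 : p - 1 = j + 1 - k := by omega
  refine ⟨(4 * ((j : ℝ) + 1 + 1)) ^ p + 2 ^ p * C₁, by positivity, ?_⟩
  intro F _ _ P hP b
  rcases P.eq_empty_or_nonempty with hP0 | hPne
  · have h0 : ∀ y : Fin (j + 1) → F, cnt P (b y) (Fin.cons 1 y : Fin (j + 1 + 1) → F) = 0 := by
      intro y
      rw [cnt, hP0]
      simp
    have h1 : ∑ y : Fin (j + 1) → F,
        ((cnt P (b y) (Fin.cons 1 y : Fin (j + 1 + 1) → F) : ℕ) : ℝ) ^ p = 0 := by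
      refine Finset.sum_eq_zero fun y _ => ?_
      rw [h0, Nat.cast_zero]
      exact zero_pow (by omega)
    rw [h1, hP0]
    simp
  obtain ⟨Q, hQ0, hQd, hQv⟩ := hLOW F (j + 1) k hkm P hP
  set D : ℕ := max (4 * Q.totalDegree) 1 with hD
  have hD1 : 1 ≤ D := le_max_right _ _
  set q : ℕ := Fintype.card F with hq
  have hPc : (1 : ℝ) ≤ (P.card : ℝ) := by
    exact_mod_cast Finset.card_pos.2 hPne
  have hDp : (D : ℝ) ^ p ≤ (4 * ((j : ℝ) + 1 + 1)) ^ p * (P.card : ℝ) := by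
    rcases max_cases (4 * Q.totalDegree) 1 with ⟨h, -⟩ | ⟨h, -⟩
    · rw [hD, h]
      push_cast
      rw [mul_pow, mul_pow, mul_assoc]
      refine mul_le_mul_of_nonneg_left ?_ (by positivity)
      push_cast at hQd
      exact hQd
    · rw [hD, h, Nat.cast_one, one_pow]
      have h5 : (1 : ℝ) ≤ (4 * ((j : ℝ) + 1 + 1)) ^ p := by
        refine one_le_pow₀ ?_
        have : (0 : ℝ) ≤ j := Nat.cast_nonneg j
        linarith
      nlinarith
  have hcnt : ∀ y : Fin (j + 1) → F,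
      cnt P (b y) (Fin.cons 1 y : Fin (j + 1 + 1) → F) ≤ q := by
    intro y
    rw [cnt]
    exact (Finset.card_le_univ _)
  have hcard : (Fintype.card (Fin (j + 1) → F) : ℝ) = (q : ℝ) ^ (j + 1) := by
    rw [Fintype.card_fun, Fintype.card_fin]
    push_cast
    rfl
  calc ∑ y : Fin (j + 1) → F, ((cnt P (b y) (Fin.cons 1 y : Fin (j + 1 + 1) → F) : ℕ) : ℝ) ^ p
      ≤ ∑ y : Fin (j + 1) → F, ((D : ℝ) ^ p + ∑ E ∈ Finset.Ico D q,
          if E < cnt P (b y) (Fin.cons 1 y : Fin (j + 1 + 1) → F)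
            then 2 ^ p * (E : ℝ) ^ (p - 1) else 0) :=
        Finset.sum_le_sum fun y _ => layer p D q _ hp1 hD1 (hcnt y)
    _ = (q : ℝ) ^ (j + 1) * (D : ℝ) ^ p + ∑ E ∈ Finset.Ico D q, 2 ^ p *
          ((((Finset.univ : Finset (Fin (j + 1) → F)).filter
          (fun y => E < cnt P (b y) (Fin.cons 1 y : Fin (j + 2) → F))).card : ℝ) *
            (E : ℝ) ^ (j + 1 - k)) := by
        rw [Finset.sum_add_distrib, Finset.sum_const, Finset.card_univ, nsmul_eq_mul, hcard,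
          Finset.sum_comm]
        congr 1
        refine Finset.sum_congr rfl fun E _ => ?_
        rw [← Finset.sum_filter, Finset.sum_const, nsmul_eq_mul, hp2]
        ring
    _ ≤ (q : ℝ) ^ (j + 1) * ((4 * ((j : ℝ) + 1 + 1)) ^ p * (P.card : ℝ)) +
          ∑ E ∈ Finset.Ico D q, 2 ^ p * (C₁ * (P.card : ℝ) * (q : ℝ) ^ j) := by
        refine add_le_add (mul_le_mul_of_nonneg_left hDp (by positivity))
          (Finset.sum_le_sum fun E hE => mul_le_mul_of_nonneg_left ?_ (by positivity))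
        rw [Finset.mem_Ico] at hE
        exact hlb F P hP b Q hQ0 hQv E (hD1.trans hE.1) ((le_max_left _ _).trans hE.1) hE.2
    _ ≤ (q : ℝ) ^ (j + 1) * ((4 * ((j : ℝ) + 1 + 1)) ^ p * (P.card : ℝ)) +
          (q : ℝ) * (2 ^ p * (C₁ * (P.card : ℝ) * (q : ℝ) ^ j)) := by
        refine add_le_add le_rfl ?_
        rw [Finset.sum_const, nsmul_eq_mul, Nat.card_Ico]
        refine mul_le_mul_of_nonneg_right ?_ (by positivity)
        exact_mod_cast Nat.sub_le q D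
    _ = ((4 * ((j : ℝ) + 1 + 1)) ^ p + 2 ^ p * C₁) * (P.card : ℝ) * (q : ℝ) ^ (j + 1) := by
        ring

end Pool.Agent.W571.KP
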