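import Pool.Agent.W770.KP.Stm

/-! Project KP, part ZS: geometric sums. -/

set_option autoImplicit false

open scoped Classical

namespace Pool.Agent.W571.KP

open Pool.Agent.W770.KP

theorem geo (s : ℤ) (I : Finset ℤ) (h : ∀ i ∈ I, i ≤ s) :
    ∑ i ∈ I, (2 : ℝ) ^ i ≤ 2 * (2 : ℝ) ^ s := by
  have h1 : ∑ i ∈ I, (2 : ℝ) ^ i = (2 : ℝ) ^ s * ∑ j ∈ I.image (fun i => (s - i).toNat),
      (1 / 2 : ℝ) ^ j := by
    rw [Finset.sum_image, Finset.mul_sum]
    · refine Finset.sum_congr rfl fun i hi => ?_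
      have hi' := h i hi
      obtain ⟨n, hn⟩ := Int.eq_ofNat_of_zero_le (sub_nonneg.2 hi')
      rw [hn, Int.toNat_natCast]
      have h2 : i = s - n := by
        have : s - i = n := hn
        linarith
      rw [h2, zpow_sub₀ (by norm_num), zpow_natCast, one_div, inv_pow, div_eq_mul_inv]
    · intro i hi i' hi' hii
      have h3 := h i hi
      have h4 := h i' hi'
      have h5 : (s - i).toNat = (s - i').toNat := hii
      omega
  rw [h1, mul_comm]
  refine mul_le_mul_of_nonneg_right ?_ (by positivity)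
  exact (summable_geometric_two.sum_le_tsum _ fun j _ => by positivity).trans_eq
    tsum_geometric_two

theorem zs : S_ZS := by
  constructor
  · intro Λ l
    rw [← Finset.sum_filter_add_sum_filter_not Λ (fun l' => l' < l)]
    have h1 : ∑ l' ∈ Λ.filter (fun l' => l' < l), (2 : ℝ) ^ (-|l - l'|) ≤ 1 := by
      have h2 : ∑ l' ∈ Λ.filter (fun l' => l' < l), (2 : ℝ) ^ (-|l - l'|) =
          (2 : ℝ) ^ (-l) * ∑ l' ∈ Λ.filter (fun l' => l' < l), (2 : ℝ) ^ l' := by
        rw [Finset.mul_sum]
        refine Finset.sum_congr rfl fun l' hl' => ?_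
        have h3 := (Finset.mem_filter.1 hl').2
        rw [abs_of_pos (by linarith), ← zpow_add₀ (by norm_num)]
        congr 1
        ring
      rw [h2]
      have h4 := geo (l - 1) (Λ.filter (fun l' => l' < l)) fun i hi => by
        have := (Finset.mem_filter.1 hi).2
        omega
      calc (2 : ℝ) ^ (-l) * ∑ l' ∈ Λ.filter (fun l' => l' < l), (2 : ℝ) ^ l'
          ≤ (2 : ℝ) ^ (-l) * (2 * (2 : ℝ) ^ (l - 1)) :=
            mul_le_mul_of_nonneg_left h4 (by positivity)
        _ = 1 := by
            rw [zpow_sub₀ (by norm_num), zpow_neg]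
            have : (2 : ℝ) ^ l ≠ 0 := by positivity
            field_simp
    have h2 : ∑ l' ∈ Λ.filter (fun l' => ¬ l' < l), (2 : ℝ) ^ (-|l - l'|) ≤ 2 := by
      have h3 : ∑ l' ∈ Λ.filter (fun l' => ¬ l' < l), (2 : ℝ) ^ (-|l - l'|) =
          (2 : ℝ) ^ l * ∑ i ∈ (Λ.filter (fun l' => ¬ l' < l)).image (fun i => -i),
            (2 : ℝ) ^ i := by
        rw [Finset.sum_image fun i _ i' _ h => neg_injective h, Finset.mul_sum]
        refine Finset.sum_congr rfl fun l' hl' => ?_
        have h3 := (Finset.mem_filter.1 hl').2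
        rw [abs_of_nonpos (by linarith), ← zpow_add₀ (by norm_num)]
        congr 1
        ring
      rw [h3]
      have h4 := geo (-l) ((Λ.filter (fun l' => ¬ l' < l)).image (fun i => -i)) fun i hi => by
        obtain ⟨i', hi', rfl⟩ := Finset.mem_image.1 hi
        have := (Finset.mem_filter.1 hi').2
        omega
      calc (2 : ℝ) ^ l * ∑ i ∈ (Λ.filter (fun l' => ¬ l' < l)).image (fun i => -i), (2 : ℝ) ^ i
          ≤ (2 : ℝ) ^ l * (2 * (2 : ℝ) ^ (-l)) :=
            mul_le_mul_of_nonneg_left h4 (by positivity)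
        _ = 2 := by
            rw [zpow_neg]
            have : (2 : ℝ) ^ l ≠ 0 := by positivity
            field_simp
    linarith
  · intro ι Q st I
    have h1 : ∀ i : ℤ, (2 : ℝ) ^ i * ((Q.filter (fun w => i ≤ st w)).card : ℝ) =
        ∑ w ∈ Q, if i ≤ st w then (2 : ℝ) ^ i else 0 := by
      intro i
      rw [← Finset.sum_filter, Finset.sum_const, nsmul_eq_mul, mul_comm]
    simp only [h1]
    rw [Finset.sum_comm, Finset.mul_sum]
    refine Finset.sum_le_sum fun w _ => ?_
    rw [← Finset.sum_filter]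
    exact geo _ _ fun i hi => (Finset.mem_filter.1 hi).2

end Pool.Agent.W571.KP
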